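import Mathlib

set_option autoImplicit false

namespace Pool.Agent.Results.MP_81fdd0_co.InfiniteQuotient

open FreeGroup

section
variable {α : Type} [DecidableEq α]

/-- `w` properly overlaps `w'` -/
def POv (w w' : FreeGroup α) : Prop :=
  ∃ x, x ≠ [] ∧ x <:+ w.toWord ∧ x <+: w'.toWord ∧ x.length < w.toWord.length ∧
    x.length < w'.toWord.length

/-- `w` is non-self-overlapping -/
def NSO (w : FreeGroup α) : Prop :=
  w ≠ 1 ∧ ¬ ∃ x, x ≠ [] ∧ x <+: w.toWord ∧ x <:+ w.toWord ∧ x.length < w.toWord.length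

/-- the underlying undirected graph of `OG(V)` -/
def OG (V : Set (FreeGroup α)) : SimpleGraph V :=
  SimpleGraph.fromRel fun w w' => POv w.1 w'.1

/-- the quotient graph on the pairs `{w, w⁻¹}` -/
def OGbar (V : Set (FreeGroup α)) : SimpleGraph {s : Set (FreeGroup α) // ∃ w ∈ V, s = {w, w⁻¹}} :=
  SimpleGraph.fromRel fun s t => ∃ u ∈ s.1, ∃ v ∈ t.1, POv u v

theorem ir_pre {x y : List (α × Bool)} (h : x <+: y) : invRev x <:+ invRev y := by
  obtain ⟨t, rfl⟩ := h
  exact ⟨invRev t, by simp⟩

theorem ir_suf {x y : List (α × Bool)} (h : x <:+ y) : invRev x <+: invRev y := by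
  obtain ⟨t, rfl⟩ := h
  exact ⟨invRev t, by simp⟩

theorem ir_ne {x : List (α × Bool)} (h : x ≠ []) : invRev x ≠ [] := by
  intro e; apply h; rw [← invRev_invRev (L₁ := x), e]; rfl

theorem POv.inv {w w' : FreeGroup α} (h : POv w w') : POv w'⁻¹ w⁻¹ := by
  obtain ⟨x, h0, h1, h2, h3, h4⟩ := h
  refine ⟨invRev x, ir_ne h0, ?_, ?_, ?_, ?_⟩ <;> rw [toWord_inv]
  exacts [ir_pre h2, ir_suf h1, by simpa using h4, by simpa using h3]

theorem NSO.inv {w : FreeGroup α} (h : NSO w⁻¹) : NSO w := by
  refine ⟨fun e => h.1 (by simp [e]), fun ⟨x, h0, h1, h2, h3⟩ => h.2 ⟨invRev x, ir_ne h0, ?_, ?_, ?_⟩⟩ <;>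
    rw [toWord_inv]
  exacts [ir_suf h2, ir_pre h1, by simpa using h3]

theorem red_inv {x : List (α × Bool)} (h : IsReduced x) : IsReduced (invRev x) := by
  rw [isReduced_iff_reduce_eq, reduce_invRev, h.reduce_eq]

end

abbrev W := List (Fin 3 × Bool)

def U : Set (FreeGroup (Fin 3)) := {w | ∃ p : W, w.toWord = p ++ [(2, true)] ∧ ∀ l ∈ p, l.1 ≠ 2}

def V : Set (FreeGroup (Fin 3)) := {w | w ∈ U ∨ w⁻¹ ∈ U}

theorem suf_mem {x p : W} {z : Fin 3 × Bool} (h0 : x ≠ []) (h : x <:+ p ++ [z]) : z ∈ x := by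
  have := h.getLast h0
  simp only [ne_eq, List.cons_ne_self, not_false_eq_true, List.getLast_append_of_ne_nil,
    List.getLast_singleton] at this
  rw [← this]
  exact List.getLast_mem h0

theorem pre_sub {x p : W} {z : Fin 3 × Bool} (h : x <+: p ++ [z])
    (hl : x.length < (p ++ [z]).length) : x <+: p :=
  List.prefix_of_prefix_length_le h (List.prefix_append _ _) (by simp at hl; omega)

theorem mem_ir {p : W} {l : Fin 3 × Bool} (h : l ∈ invRev p) : (l.1, !l.2) ∈ p := by
  simp only [invRev, List.mem_reverse, List.mem_map] at h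
  obtain ⟨a, ha, rfl⟩ := h
  simpa using ha

theorem noU {w w' : FreeGroup (Fin 3)} (h : POv w w') (hw : w ∈ U) (hw' : w' ∈ V) : False := by
  obtain ⟨x, h0, h1, h2, -, h4⟩ := h
  obtain ⟨p, e, -⟩ := hw
  rw [e] at h1
  have hz := suf_mem h0 h1
  rcases hw' with ⟨q, e', hq⟩ | ⟨q, e', hq⟩
  · rw [e'] at h2 h4
    exact hq _ ((pre_sub h2 h4).subset hz) rfl
  · have : w'.toWord = invRev (q ++ [(2, true)]) := by rw [← e', toWord_inv, invRev_invRev]
    rw [this] at h2
    have := mem_ir (h2.subset hz)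
    simp only [Bool.not_true, List.mem_append, List.mem_singleton] at this
    rcases this with g | g
    · exact hq _ g rfl
    · simp at g

theorem V_inv {w : FreeGroup (Fin 3)} (h : w ∈ V) : w⁻¹ ∈ V := by
  rcases h with h | h
  · exact Or.inr (by simpa using h)
  · exact Or.inl h

theorem edge {w w' : FreeGroup (Fin 3)} (h : POv w w') (hw : w ∈ V) (hw' : w' ∈ V) :
    w ∉ U ∧ w' ∈ U :=
  ⟨fun g => noU h g hw', hw'.resolve_right fun g => noU h.inv g (V_inv hw)⟩

theorem nsoU {w : FreeGroup (Fin 3)} (h : w ∈ U) : NSO w := by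
  obtain ⟨p, e, hp⟩ := h
  refine ⟨fun g => by simp [g] at e, fun ⟨x, h0, h1, h2, h3⟩ => ?_⟩
  rw [e] at h1 h2 h3
  exact hp _ ((pre_sub h1 h3).subset (suf_mem h0 h2)) rfl

def Good (p : W) : Prop :=
  IsReduced p ∧ p.head? = some (0, true) ∧ p.getLast? = some (0, false) ∧ ∀ l ∈ p, l.1 ≠ 2

theorem Good.inv {p : W} (h : Good p) : Good (invRev p) := by
  obtain ⟨h1, h2, h3, h4⟩ := h
  refine ⟨red_inv h1, ?_, ?_, fun l hl => h4 (l.1, !l.2) (mem_ir hl)⟩
  · simp [invRev, List.head?_reverse, List.getLast?_map, h3]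
  · simp [invRev, List.getLast?_reverse, List.head?_map, h2]

theorem Good.ne {p : W} (h : Good p) : p ≠ [] := by
  rintro rfl; simpa using h.2.1

theorem Good.app {p q : W} (hp : Good p) (hq : Good q) (s : Bool) : Good (p ++ (1, s) :: q) := by
  obtain ⟨h1, h2, h3, h4⟩ := hp
  obtain ⟨g1, g2, g3, g4⟩ := hq
  refine ⟨?_, ?_, ?_, ?_⟩
  · refine List.IsChain.append h1 (List.IsChain.cons g1 ?_) ?_
    · intro y hy; rw [g2] at hy; cases hy; simp
    · intro x hx y hy; rw [h3] at hx; cases hx; cases hy; simp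
  · simp [List.head?_append, h2]
  · rw [List.getLast?_append, List.getLast?_cons, g3]; rfl
  · intro l hl
    simp only [List.mem_append, List.mem_cons] at hl
    rcases hl with hl | rfl | hl
    exacts [h4 l hl, by simp, g4 l hl]

def R (p q : W) : Prop := ∃ y, y ≠ [] ∧ y <+: p ∧ invRev y <+: q

theorem build (n : ℕ) (S : Finset (Fin n × Fin n)) :
    ∃ f : Fin n → W, (∀ i, Good (f i)) ∧ ∀ e ∈ S, e.1 ≠ e.2 → R (f e.1) (f e.2) := by
  induction S using Finset.induction_on with
  | empty =>
    refine ⟨fun _ => [(0, true), (1, true), (0, false)], fun _ => ⟨?_, rfl, rfl, ?_⟩, by simp⟩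
    · simp
    · simp
  | insert e S _ ih =>
    obtain ⟨f, hf, hS⟩ := ih
    obtain ⟨i, j⟩ := e
    by_cases hij : i = j
    · refine ⟨f, hf, fun e he hne => ?_⟩
      rcases Finset.mem_insert.mp he with rfl | he
      exacts [absurd hij hne, hS e he hne]
    let g : Fin n → W := fun k => if k = i then f i ++ (1, true) :: invRev (f j) else
      if k = j then f j ++ (1, false) :: invRev (f i) else f k
    have hpre : ∀ k, f k <+: g k := by
      intro k
      simp only [g]
      split_ifs with h1 h2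
      exacts [h1 ▸ List.prefix_append _ _, h2 ▸ List.prefix_append _ _, List.prefix_rfl]
    refine ⟨g, fun k => ?_, fun e he hne => ?_⟩
    · simp only [g]
      split_ifs
      exacts [(hf i).app (hf j).inv _, (hf j).app (hf i).inv _, hf k]
    · rcases Finset.mem_insert.mp he with rfl | he
      · refine ⟨g i, by simp [g], List.prefix_rfl, ?_⟩
        have : invRev (g i) = g j := by
          simp only [g, if_true, if_neg (Ne.symm hij), invRev_append]
          rw [invRev_cons, invRev_invRev]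
          simp [invRev]
        rw [this]
      · obtain ⟨y, h0, h1, h2⟩ := hS e he hne
        exact ⟨y, h0, h1.trans (hpre _), h2.trans (hpre _)⟩

theorem tw {p : W} (h : Good p) : (mk (p ++ [(2, true)])).toWord = p ++ [(2, true)] := by
  rw [toWord_mk]
  refine IsReduced.reduce_eq (List.IsChain.append h.1 (List.isChain_singleton _) ?_)
  intro x hx y hy; rw [h.2.2.1] at hx; cases hx; cases hy; simp

/-- A symmetric set of non-self-overlapping words whose overlap graph has finite clique number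
while its quotient by inversion has complete subgraphs of every finite size. -/
theorem result :
    ∃ (r : ℕ) (V : Set (FreeGroup (Fin r))), 2 ≤ r ∧ (∀ w ∈ V, w⁻¹ ∈ V) ∧ (∀ w ∈ V, NSO w) ∧
      (OG V).CliqueFree 3 ∧ ∀ n, ¬ (OGbar V).CliqueFree n := by
  refine ⟨3, V, by norm_num, fun w => V_inv, ?_, ?_, ?_⟩
  · rintro w (h | h)
    exacts [nsoU h, (nsoU h).inv]
  · intro s hs
    obtain ⟨a, b, c, h1, h2, h3, -⟩ := SimpleGraph.is3Clique_iff.mp hs
    have k : ∀ a b : V, (OG V).Adj a b → (a.1 ∈ U ↔ b.1 ∉ U) := by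
      rintro a b ⟨-, h | h⟩
      · have := edge h a.2 b.2; tauto
      · have := edge h b.2 a.2; tauto
    have := k _ _ h1
    have := k _ _ h2
    have := k _ _ h3
    tauto
  · intro n
    obtain ⟨f, hf, hR⟩ := build n Finset.univ
    let w : Fin n → FreeGroup (Fin 3) := fun i => mk (f i ++ [(2, true)])
    have hw : ∀ i, (w i).toWord = f i ++ [(2, true)] := fun i => tw (hf i)
    have hU : ∀ i, w i ∈ U := fun i => ⟨f i, hw i, (hf i).2.2.2⟩
    have hP : ∀ i j, i ≠ j → POv (w i)⁻¹ (w j) := by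
      intro i j hij
      obtain ⟨y, h0, h1, h2⟩ := hR (i, j) (Finset.mem_univ _) hij
      have l1 := h1.length_le
      have l2 := h2.length_le
      refine ⟨invRev y, ir_ne h0, ?_, ?_, ?_, ?_⟩
      · rw [toWord_inv, hw]; exact ir_pre (h1.trans (List.prefix_append _ _))
      · rw [hw]; exact h2.trans (List.prefix_append _ _)
      · rw [toWord_inv, hw]; simp at l1 ⊢; omega
      · rw [hw]; simp at l2 ⊢; omega
    let v : Fin n → {s : Set (FreeGroup (Fin 3)) // ∃ w ∈ V, s = {w, w⁻¹}} :=
      fun i => ⟨{w i, (w i)⁻¹}, w i, Or.inl (hU i), rfl⟩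
    have hne : ∀ i j, i ≠ j → v i ≠ v j := by
      intro i j hij e
      have e' : ({w i, (w i)⁻¹} : Set _) = {w j, (w j)⁻¹} := congrArg Subtype.val e
      have : w i ∈ ({w j, (w j)⁻¹} : Set _) := e' ▸ Or.inl rfl
      rcases this with g | g
      · have g' : f i = f j := by
          have := (hw i).symm.trans ((congrArg toWord g).trans (hw j))
          simpa using this
        obtain ⟨y, h0, h1, h2⟩ := hR (i, j) (Finset.mem_univ _) hij
        simp only [g'] at h1 h2
        have e3 : invRev y = y := (List.prefix_of_prefix_length_le h2 h1 (by simp)).eq_of_length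
          (by simp)
        have r : IsReduced y := by
          obtain ⟨t, ht⟩ := h1
          exact List.IsChain.left_of_append (l₂ := t) (ht ▸ (hf j).1)
        have : (mk y)⁻¹ = mk y := by rw [inv_mk, e3]
        have t2 : (mk y) ^ 2 = 1 := by rw [pow_two]; nth_rewrite 1 [← this]; exact inv_mul_cancel _
        have := (pow_eq_one_iff_left (by norm_num)).mp t2
        have t := congrArg toWord this
        rw [toWord_mk, r.reduce_eq] at t
        exact h0 t
      · exact (edge (hP j i hij.symm) (V_inv (Or.inl (hU j))) (Or.inl (hU i))).1 (g ▸ hU i)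
    classical
    intro hc
    refine hc (Finset.univ.image v) ⟨?_, ?_⟩
    · intro s hs t ht hst
      simp only [Finset.coe_image, Set.mem_image] at hs ht
      obtain ⟨i, -, rfl⟩ := hs
      obtain ⟨j, -, rfl⟩ := ht
      have h : i ≠ j := fun e => hst (by rw [e])
      exact ⟨hst, Or.inl ⟨_, Or.inr rfl, _, Or.inl rfl, hP i j h⟩⟩
    · rw [Finset.card_image_of_injective _ fun i j e => by_contra fun h => hne i j h e]
      simp

end Pool.Agent.Results.MP_81fdd0_co.InfiniteQuotient
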